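import Pool.Agent.W761.CP.Defs

/-! # CP-KAP: bounds with the finite dimensional projection added -/

set_option autoImplicit false

open MeasureTheory
open scoped ENNReal FourierTransform SchwartzMap InnerProductSpace

namespace Pool.Agent.W657.CP

open Pool.Agent.W761.CP
open Pool.Agent.Helper209.CX (Ed L2d InH1 dirichlet IsHu)

theorem measG (d : ℕ) : MeasurableSet (Gd d) := by
  have h : Gd d = ⋂ k, {x : Ed d | 0 ≤ x k ∧ x k ≤ 1} := by
    ext x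
    simp [Gd]
  rw [h]
  refine MeasurableSet.iInter fun k => ?_
  have hk : Measurable fun x : Ed d => x k := by fun_prop
  exact (measurableSet_le measurable_const hk).inter (measurableSet_le hk measurable_const)

theorem int_sq {d : ℕ} (u : L2d d) : Integrable (fun x => ‖u x‖ ^ 2) volume :=
  (memLp_two_iff_integrable_sq_norm (Lp.aestronglyMeasurable u)).1 (Lp.memLp u)

theorem self_in {d : ℕ} (u : L2d d) : (⟪u, u⟫_ℂ : ℂ) = ((‖u‖ ^ 2 : ℝ) : ℂ) := by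
  rw [inner_self_eq_norm_sq_to_K]; norm_cast

theorem norm_sq {d : ℕ} (u : L2d d) : ∫ x, ‖u x‖ ^ 2 = ‖u‖ ^ 2 := by
  have h1 : (⟪u, u⟫_ℂ : ℂ) = ∫ x, ⟪u x, u x⟫_ℂ := L2.inner_def u u
  have h2 : ∀ x, (⟪u x, u x⟫_ℂ : ℂ) = ((‖u x‖ ^ 2 : ℝ) : ℂ) := fun x => by
    rw [inner_self_eq_norm_sq_to_K]; norm_cast
  rw [self_in] at h1
  simp_rw [h2] at h1
  rw [integral_complex_ofReal] at h1
  exact_mod_cast h1.symm

theorem fin1 {a b A p : ℝ} (ha : 0 ≤ a) (hb : 0 ≤ b) (hA : A = a ^ 2) (hp : p = a * b)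
    (K : ℝ) (hK : 0 ≤ K) (h : A ≤ K * p) : a ≤ K * b := by
  subst hA hp
  rcases ha.eq_or_lt with h0 | h0
  · rw [← h0]; positivity
  · nlinarith

theorem real1 {h M C m2 G q A p x I re im zi : ℝ} (hh : 0 < h) (hM : 8 ≤ M)
    (hm : 0 < m2) (hG : 0 ≤ G) (hA : 0 ≤ A) (hp : 0 ≤ p)
    (hCM : 4 * C * M ≤ m2 * h ^ 2) (hx : x ≤ M / 2) (hV : 0 ≤ I)
    (e1 : h ^ 2 * G + I = x * A - 4 * M * q + re) (hre : re ≤ p)
    (J GG : ℝ) (hP : GG ≤ q + C / m2 * G) (hJ : J ≤ GG)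
    (e2 : J = zi * A + im) (him : -p ≤ im) (hzi : 1 / 2 ≤ zi) : A ≤ 8 * p := by
  have hM0 : 0 < M := by linarith
  have hp2 : C / m2 * G ≤ h ^ 2 * G / (4 * M) := by
    rw [div_mul_eq_mul_div, div_le_div_iff₀ hm (by linarith)]
    nlinarith [mul_le_mul_of_nonneg_right hCM hG]
  obtain ⟨D, hD⟩ : ∃ D, D = h ^ 2 * G / (4 * M) := ⟨_, rfl⟩
  have hD4 : h ^ 2 * G = D * (4 * M) := by rw [hD]; field_simp
  rw [← hD] at hp2
  have h1 : zi * A ≥ 1 / 2 * A := mul_le_mul_of_nonneg_right hzi hA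
  have h2 : x * A ≤ M / 2 * A := mul_le_mul_of_nonneg_right hx hA
  have h3 : 4 * M * (D + q) ≤ M / 2 * A + p := by nlinarith
  have h4 : D + q ≤ A / 8 + p / 32 := by
    have h5 : 4 * M * (D + q) ≤ 4 * M * (A / 8 + p / 32) := by nlinarith
    exact le_of_mul_le_mul_left h5 (by linarith)
  nlinarith

theorem real2 {h M C m2 G q A p x I re : ℝ} (hh : 0 < h) (hM : 8 ≤ M)
    (hm : 0 < m2) (hG : 0 ≤ G) (hA : 0 ≤ A) (hp : 0 ≤ p) 
    (hCM : 4 * C * M ≤ m2 * h ^ 2) (hx : x ≤ M / 2)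
    (e1 : h ^ 2 * G + I = x * A - 4 * M * q + re) (hre : re ≤ p)
    (GG GC : ℝ) (hq : 0 ≤ q) (hP : GG ≤ q + C / m2 * G) (hJ : M * GC ≤ I) (e2 : A = GG + GC) :
    A ≤ 1 * p := by
  have hM0 : 0 < M := by linarith
  have hp2 : C / m2 * G ≤ h ^ 2 * G / (4 * M) := by
    rw [div_mul_eq_mul_div, div_le_div_iff₀ hm (by linarith)]
    nlinarith [mul_le_mul_of_nonneg_right hCM hG]
  obtain ⟨D, hD⟩ : ∃ D, D = h ^ 2 * G / (4 * M) := ⟨_, rfl⟩
  have hD4 : h ^ 2 * G = D * (4 * M) := by rw [hD]; field_simp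
  have hD0 : 0 ≤ D := by rw [hD]; positivity
  rw [← hD] at hp2
  have h2 : x * A ≤ M / 2 * A := mul_le_mul_of_nonneg_right hx hA
  have h3 : M * (D + q + GC) ≤ M / 2 * A + p := by nlinarith
  have h4 : D + q + GC ≤ A / 2 + p / 8 := by
    have h5 : M * (D + q + GC) ≤ M * (A / 2 + p / 8) := by nlinarith
    exact le_of_mul_le_mul_left h5 (by linarith)
  nlinarith

theorem kap (hE : S_E0) : S_KAP := by
  intro d h M C m Q V u f z hh hM hC hm hFB hV hQ hCM hz hHu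
  obtain ⟨g, hg, -⟩ := id hHu
  obtain ⟨e1, e2⟩ := hE d h V u _ g hFB hHu hg
  obtain ⟨hVm, C', hC', hFB2⟩ := hFB
  have hint := (hFB2 u g hg).1
  have hm0 : (0 : ℝ) < m := by exact_mod_cast hm
  have hq : (⟪u, Q u⟫_ℂ : ℂ) = ((‖Q u‖ ^ 2 : ℝ) : ℂ) := by
    calc (⟪u, Q u⟫_ℂ : ℂ) = ⟪u, Q (Q u)⟫_ℂ := by rw [hQ.idem u]
      _ = ⟪Q u, Q u⟫_ℂ := (hQ.sa u (Q u)).symm
      _ = _ := self_in _
  have hin : (⟪u, z • u - ((4 * M : ℝ) : ℂ) • Q u + f⟫_ℂ : ℂ)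
      = z * ((‖u‖ ^ 2 : ℝ) : ℂ) - ((4 * M * ‖Q u‖ ^ 2 : ℝ) : ℂ) + ⟪u, f⟫_ℂ := by
    rw [inner_add_right, inner_sub_right, inner_smul_right, inner_smul_right, hq, self_in]
    push_cast
    rfl
  rw [hin] at e1 e2
  have r1 : (z * ((‖u‖ ^ 2 : ℝ) : ℂ) - ((4 * M * ‖Q u‖ ^ 2 : ℝ) : ℂ) + ⟪u, f⟫_ℂ).re
      = z.re * ‖u‖ ^ 2 - 4 * M * ‖Q u‖ ^ 2 + (⟪u, f⟫_ℂ : ℂ).re := by
    rw [Complex.add_re, Complex.sub_re, Complex.re_mul_ofReal, Complex.ofReal_re]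
  have r2 : (z * ((‖u‖ ^ 2 : ℝ) : ℂ) - ((4 * M * ‖Q u‖ ^ 2 : ℝ) : ℂ) + ⟪u, f⟫_ℂ).im
      = z.im * ‖u‖ ^ 2 + (⟪u, f⟫_ℂ : ℂ).im := by
    rw [Complex.add_im, Complex.sub_im, Complex.im_mul_ofReal, Complex.ofReal_im, sub_zero]
  rw [r1] at e1
  rw [r2] at e2
  have c0 : ‖(⟪u, f⟫_ℂ : ℂ)‖ ≤ ‖u‖ * ‖f‖ := norm_inner_le_norm u f
  have c1 := abs_le.1 ((Complex.abs_re_le_norm (⟪u, f⟫_ℂ : ℂ)).trans c0)
  have c2 := abs_le.1 ((Complex.abs_im_le_norm (⟪u, f⟫_ℂ : ℂ)).trans c0)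
  have hp := hQ.poi u g hg
  have hGs0 : 0 ≤ ∑ k, ‖g k‖ ^ 2 := Finset.sum_nonneg fun _ _ => sq_nonneg _
  have hVu : 0 ≤ ∫ x, (V x).re * ‖u x‖ ^ 2 :=
    integral_nonneg fun x => mul_nonneg (hV x) (sq_nonneg _)
  have iR : Integrable (fun x => (V x).re * ‖u x‖ ^ 2) volume := by
    refine hint.mono ((Complex.measurable_re.comp hVm).aestronglyMeasurable.mul
      (int_sq u).aestronglyMeasurable) (Filter.Eventually.of_forall fun x => ?_)
    rw [norm_mul, norm_mul, norm_norm]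
    exact mul_le_mul_of_nonneg_right (Complex.abs_re_le_norm _) (norm_nonneg _)
  have iI : Integrable (fun x => (V x).im * ‖u x‖ ^ 2) volume := by
    refine hint.mono ((Complex.measurable_im.comp hVm).aestronglyMeasurable.mul
      (int_sq u).aestronglyMeasurable) (Filter.Eventually.of_forall fun x => ?_)
    rw [norm_mul, norm_mul, norm_norm]
    exact mul_le_mul_of_nonneg_right (Complex.abs_im_le_norm _) (norm_nonneg _)
  have hG := measG d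
  constructor
  · intro hI1 hI2 hzi
    have k1 : ∫ x, (V x).im * ‖u x‖ ^ 2 ≤ ∫ x in Gd d, ‖u x‖ ^ 2 := by
      rw [← integral_indicator hG]
      refine integral_mono iI ((int_sq u).indicator hG) fun x => ?_
      by_cases hx : x ∈ Gd d
      · rw [Set.indicator_of_mem hx]
        have := mul_le_mul_of_nonneg_right (hI1 x) (sq_nonneg ‖u x‖)
        rwa [one_mul] at this
      · rw [Set.indicator_of_notMem hx]
        exact mul_nonpos_of_nonpos_of_nonneg (hI2 x hx) (sq_nonneg _)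
    exact fin1 (norm_nonneg u) (norm_nonneg f) rfl rfl 8 (by norm_num)
      (real1 hh hM (by positivity) hGs0 (sq_nonneg _) (by positivity) hCM hz hVu e1 c1.2 _ _ hp k1
        e2 c2.1 hzi)
  · intro hR
    have k1 : M * ∫ x in (Gd d)ᶜ, ‖u x‖ ^ 2 ≤ ∫ x, (V x).re * ‖u x‖ ^ 2 := by
      rw [← integral_indicator hG.compl, ← integral_const_mul]
      refine integral_mono (((int_sq u).indicator hG.compl).const_mul M) iR fun x => ?_
      by_cases hx : x ∈ Gd d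
      · have hx' : x ∉ (Gd d)ᶜ := fun h => h hx
        simp only [Set.indicator_of_notMem hx', mul_zero]
        exact mul_nonneg (hV x) (sq_nonneg _)
      · have hx' : x ∈ (Gd d)ᶜ := hx
        simp only [Set.indicator_of_mem hx']
        exact mul_le_mul_of_nonneg_right (hR x hx) (sq_nonneg _)
    have k2 : ‖u‖ ^ 2 = (∫ x in Gd d, ‖u x‖ ^ 2) + ∫ x in (Gd d)ᶜ, ‖u x‖ ^ 2 := by
      rw [← norm_sq u]
      exact (integral_add_compl hG (int_sq u)).symm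
    have := fin1 (norm_nonneg u) (norm_nonneg f) rfl rfl 1 (by norm_num)
      (real2 hh hM (by positivity) hGs0 (sq_nonneg _) (by positivity) hCM hz e1 c1.2 _ _
        (sq_nonneg _) hp k1 k2)
    rwa [one_mul] at this

end Pool.Agent.W657.CP
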